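import Pool.Agent.H84.KL.Targets

/-!
# Board kl_modules, module MCB: subdivision of cubes
-/

set_option autoImplicit false

open MeasureTheory Set
open scoped ENNReal

namespace Pool.Agent.H60.KL

open Pool.Agent.H84.KL

variable {k m : ℕ}

private theorem qb_eq (c : Co k m) (r : ℝ) :
    Qb c r = (Set.univ.pi fun i => Ico (c.1 i) (c.1 i + r)) ×ˢ
      (Set.univ.pi fun j => Ico (c.2 j) (c.2 j + r)) := by
  ext a
  simp [Qb, Set.mem_prod, Set.mem_pi]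

private theorem qb_meas (c : Co k m) (r : ℝ) : MeasurableSet (Qb c r) := by
  rw [qb_eq]
  exact (MeasurableSet.univ_pi fun _ => measurableSet_Ico).prod
    (MeasurableSet.univ_pi fun _ => measurableSet_Ico)

private theorem qb_vol (c : Co k m) (r : ℝ) (hr : 0 ≤ r) :
    volume (Qb c r) = ENNReal.ofReal (r ^ (k + m)) := by
  rw [qb_eq, Measure.volume_eq_prod, Measure.prod_prod, Real.volume_pi_Ico, Real.volume_pi_Ico]
  simp only [add_sub_cancel_left, Finset.prod_const, Finset.card_univ, Fintype.card_fin]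
  rw [← ENNReal.ofReal_pow hr, ← ENNReal.ofReal_pow hr, ← ENNReal.ofReal_mul (by positivity),
    pow_add]

/-- the corner of the small cube with index `p` -/
private noncomputable def cn (c : Co k m) (ρ : ℝ) {N : ℕ}
    (p : (Fin k → Fin N) × (Fin m → Fin N)) : Co k m :=
  (fun i => c.1 i + ρ * ((p.1 i : ℕ) : ℝ), fun j => c.2 j + ρ * ((p.2 j : ℕ) : ℝ))

private theorem one_split {x c ρ : ℝ} {N : ℕ} (hρ : 0 < ρ) (h1 : c ≤ x) (h2 : x < c + N * ρ) :
    ∃ i : Fin N, c + ρ * ((i : ℕ) : ℝ) ≤ x ∧ x < c + ρ * ((i : ℕ) : ℝ) + ρ := by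
  have h3 : 0 ≤ (x - c) / ρ := div_nonneg (by linarith) hρ.le
  have h4 : (x - c) / ρ < N := by
    rw [div_lt_iff₀ hρ]
    linarith
  refine ⟨⟨⌊(x - c) / ρ⌋₊, (Nat.floor_lt h3).2 h4⟩, ?_, ?_⟩
  · have h5 := Nat.floor_le h3
    rw [le_div_iff₀ hρ] at h5
    show c + ρ * ((⌊(x - c) / ρ⌋₊ : ℕ) : ℝ) ≤ x
    linarith
  · have h5 := Nat.lt_floor_add_one ((x - c) / ρ)
    rw [div_lt_iff₀ hρ] at h5
    show x < c + ρ * ((⌊(x - c) / ρ⌋₊ : ℕ) : ℝ) + ρ
    linarith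

private theorem one_uniq {x c ρ : ℝ} {i j : ℕ} (hρ : 0 < ρ) (h1 : c + ρ * (i : ℝ) ≤ x)
    (h2 : x < c + ρ * (i : ℝ) + ρ) (h3 : c + ρ * (j : ℝ) ≤ x)
    (h4 : x < c + ρ * (j : ℝ) + ρ) : i = j := by
  have h5 : (i : ℝ) < j + 1 := by
    by_contra h
    push Not at h
    nlinarith
  have h6 : (j : ℝ) < i + 1 := by
    by_contra h
    push Not at h
    nlinarith
  have h7 : i < j + 1 := by exact_mod_cast h5
  have h8 : j < i + 1 := by exact_mod_cast h6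
  omega

private theorem one_in {x c ρ : ℝ} {N : ℕ} {i : Fin N} (hρ : 0 < ρ)
    (h1 : c + ρ * ((i : ℕ) : ℝ) ≤ x) (h2 : x < c + ρ * ((i : ℕ) : ℝ) + ρ) :
    c ≤ x ∧ x < c + N * ρ := by
  have h3 : ((i : ℕ) : ℝ) + 1 ≤ N := by exact_mod_cast i.2
  have h4 : (0 : ℝ) ≤ ((i : ℕ) : ℝ) := Nat.cast_nonneg _
  constructor
  · nlinarith
  · nlinarith

private theorem qb_union (c : Co k m) {ρ : ℝ} (hρ : 0 < ρ) (N : ℕ) :
    Qb c (N * ρ) = ⋃ p : (Fin k → Fin N) × (Fin m → Fin N), Qb (cn c ρ p) ρ := by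
  ext a
  rw [mem_iUnion]
  constructor
  · rintro ⟨h1, h2⟩
    choose u hu using fun i => one_split hρ (h1 i).1 (h1 i).2
    choose w hw using fun j => one_split hρ (h2 j).1 (h2 j).2
    exact ⟨(u, w), hu, hw⟩
  · rintro ⟨p, h1, h2⟩
    exact ⟨fun i => one_in hρ (h1 i).1 (h1 i).2, fun j => one_in hρ (h2 j).1 (h2 j).2⟩

private theorem qb_disj (c : Co k m) {ρ : ℝ} (hρ : 0 < ρ) (N : ℕ) :
    Pairwise (Function.onFun Disjoint
      fun p : (Fin k → Fin N) × (Fin m → Fin N) => Qb (cn c ρ p) ρ) := by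
  intro p q hpq
  rw [Function.onFun, Set.disjoint_left]
  rintro a ⟨h1, h2⟩ ⟨h3, h4⟩
  refine hpq (Prod.ext (funext fun i => Fin.ext ?_) (funext fun j => Fin.ext ?_))
  · exact one_uniq hρ (h1 i).1 (h1 i).2 (h3 i).1 (h3 i).2
  · exact one_uniq hρ (h2 j).1 (h2 j).2 (h4 j).1 (h4 j).2

theorem cub_main : T_CUB := by
  intro k m
  refine ⟨fun c r hr => qb_vol c r hr, ?_⟩
  intro f g ρ K N hρ _ _ _ h c
  rw [qb_union c hρ N, lintegral_iUnion (fun p => qb_meas _ _) (qb_disj c hρ N),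
    lintegral_iUnion (fun p => qb_meas _ _) (qb_disj c hρ N), ← ENNReal.tsum_mul_left]
  exact ENNReal.tsum_le_tsum fun p => h _

end Pool.Agent.H60.KL
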